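import Pool.Agent.helper55.RI.Spec
set_option autoImplicit false
namespace Pool.Agent.RI
open Pool.Agent.helper62 Prog Function Pool.Agent.helper81.PL

/-- the step of one instruction -/
def X7_st (i : Ins) (c : ℕ × List W) : ℕ × List W :=
  bif eqb i.1 0 then (i.2.2.2.1, c.2)
  else bif eqb i.1 1 then (i.2.2.2.1, c.2.set i.2.1 (i.2.2.1 :: c.2.getD i.2.1 []))
  else bif (c.2.getD i.2.1 []).isEmpty then (i.2.2.2.1, c.2)
  else bif (c.2.getD i.2.1 []).headD false then (i.2.2.2.2.2, c.2.set i.2.1 (c.2.getD i.2.1 []).tail)
  else (i.2.2.2.2.1, c.2.set i.2.1 (c.2.getD i.2.1 []).tail)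

theorem X7_gstep (L : List Ins) (c : ℕ × List W) :
    gstep L c = (L[c.1]?).elim c (fun i => X7_st i c) := by
  unfold gstep
  cases h : L[c.1]? with
  | none => rfl
  | some i =>
    obtain ⟨op, k, b, j0, j1, j2⟩ := i
    simp only [Option.elim_some, X7_st, eqb]
    by_cases h0 : op = 0
    · simp [h0]
    · by_cases h1 : op = 1
      · simp [h1]
      · simp only [h0, h1, if_false, decide_false, cond_false]
        rcases hw : c.2.getD k [] with _ | ⟨x, l⟩
        · simp
        · cases x <;> simp

theorem X7_set_eq {α : Type} (l : List α) (k : ℕ) (x : α) :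
    l.set k x = bif leb (k + 1) l.length then l.take k ++ x :: l.drop (k + 1) else l := by
  unfold leb
  by_cases h : k + 1 ≤ l.length
  · rw [decide_eq_true h, cond_true, List.set_eq_take_append_cons_drop, if_pos (by omega)]
  · rw [decide_eq_false h, cond_false, List.set_eq_of_length_le (by omega)]

@[fun_prop] theorem X7_set {α : Type} [Rep α] :
    PT (fun p : List α × ℕ × α => p.1.set p.2.1 p.2.2) := by
  have h : PT (fun p : List α × ℕ × α => bif leb (p.2.1 + 1) p.1.length then
      p.1.take p.2.1 ++ p.2.2 :: p.1.drop (p.2.1 + 1) else p.1) := by fun_prop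
  have e : (fun p : List α × ℕ × α => p.1.set p.2.1 p.2.2) =
      (fun p : List α × ℕ × α => bif leb (p.2.1 + 1) p.1.length then
      p.1.take p.2.1 ++ p.2.2 :: p.1.drop (p.2.1 + 1) else p.1) := by
    funext p
    exact X7_set_eq _ _ _
  rw [e]
  exact h

theorem X7_pt_st : PT (fun p : (ℕ × List W) × Ins => X7_st p.2 p.1) := by
  unfold X7_st
  fun_prop

theorem X7_pt_gstep (L : List Ins) : PT (gstep L) := by
  have h : PT (fun c : ℕ × List W => (L[c.1]?).elim c (fun i => X7_st i c)) := by
    have := X7_pt_st
    fun_prop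
  have e : gstep L = (fun c : ℕ × List W => (L[c.1]?).elim c (fun i => X7_st i c)) := by
    funext c
    exact X7_gstep L c
  rw [e]
  exact h

theorem X7_sz_set {α : Type} [Rep α] (l : List α) (k : ℕ) (x d : α) (m : ℕ)
    (h : sz x ≤ sz (l.getD k d) + m) : sz (l.set k x) ≤ sz l + m := by
  induction l generalizing k with
  | nil => simp
  | cons a l ih =>
    cases k with
    | zero =>
      simp only [List.set_cons_zero, sz_cons]
      simp only [List.getD_cons_zero] at h
      omega
    | succ k =>
      simp only [List.set_cons_succ, sz_cons]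
      rw [List.getD_cons_succ] at h
      have := ih k h
      omega

theorem X7_sz_tail {α : Type} [Rep α] (l : List α) : sz l.tail ≤ sz l := by
  cases l with
  | nil => simp
  | cons a l => simp only [List.tail_cons, sz_cons]; omega

theorem X7_sz_st (i : Ins) (c : ℕ × List W) : sz (X7_st i c) ≤ sz c + (sz i + 6) := by
  obtain ⟨op, k, b, j0, j1, j2⟩ := i
  obtain ⟨pc, st⟩ := c
  have hb := sz_bool_le b
  have h1 : sz (st.set k (b :: st.getD k [])) ≤ sz st + 4 := by
    apply X7_sz_set st k _ [] 4
    rw [sz_cons]
    omega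
  have h2 : sz (st.set k (st.getD k []).tail) ≤ sz st + 0 := by
    apply X7_sz_set st k _ [] 0
    exact X7_sz_tail _
  simp only [X7_st]
  cases eqb op 0
  · cases eqb op 1
    · cases (st.getD k []).isEmpty
      · cases (st.getD k []).headD false
        · simp only [cond_false, sz_prod, sz_nat] at *
          omega
        · simp only [cond_false, cond_true, sz_prod, sz_nat] at *
          omega
      · simp only [cond_false, cond_true, sz_prod, sz_nat] at *
        omega
    · simp only [cond_false, cond_true, sz_prod, sz_nat] at *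
      omega
  · simp only [cond_true, sz_prod, sz_nat] at *
    omega

theorem X7_sz_gstep (L : List Ins) (c : ℕ × List W) : sz (gstep L c) ≤ sz c + (sz L + 6) := by
  rw [X7_gstep]
  cases h : L[c.1]? with
  | none => simp
  | some i =>
    rw [Option.elim_some]
    have h1 := X7_sz_st i c
    have h2 : sz i ≤ sz L := sz_le_of_mem (List.mem_of_getElem? h)
    omega

theorem X7_sz_iter (L : List Ins) (c : ℕ × List W) (i : ℕ) :
    sz ((gstep L)^[i] c) ≤ sz c + i * (sz L + 6) := by
  induction i with
  | zero => simp
  | succ i ih =>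
    rw [Function.iterate_succ_apply']
    have := X7_sz_gstep L ((gstep L)^[i] c)
    rw [Nat.succ_mul]
    omega

theorem X7_pow (d : ℕ) : PT (fun w : W => (w.length + 2) ^ d) := by
  induction d with
  | zero =>
    simp only [pow_zero]
    fun_prop
  | succ d ih =>
    simp only [pow_succ]
    fun_prop

theorem X7 : X7_stmt := by
  rintro ⟨L, m, d⟩
  have hn := X7_pow d
  have hg : PT (fun w : W => ((0, w :: List.replicate m []) : ℕ × List W)) := by fun_prop
  have hs : PT (fun p : W × (ℕ × List W) => (fun (_ : W) (c : ℕ × List W) => gstep L c) p.1 p.2) := by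
    have := X7_pt_gstep L
    fun_prop
  have hc : PB (fun w : W => sz ((0, w :: List.replicate m []) : ℕ × List W) +
      ((w.length + 2) ^ d) * (sz L + 6)) :=
    hg.size.add (hn.nat_pb.mul (PB.const _))
  have h := pt_iter hn hg hs hc (fun w i hi => by
    refine le_trans (X7_sz_iter L _ i) ?_
    exact Nat.add_le_add_left (Nat.mul_le_mul_right _ hi) _)
  have h2 : PT (fun w : W => ((gstep L)^[(w.length + 2) ^ d]
      (0, w :: List.replicate m [])).2.headD []) := by
    have h3 : PT (fun w : W => (gstep L)^[(w.length + 2) ^ d] (0, w :: List.replicate m [])) := h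
    fun_prop
  exact h2

end Pool.Agent.RI
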